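import Pool.Agent.N905.EX.Three

set_option autoImplicit false

/-! The negative odd integers whose Syracuse orbit stays below `-y`: a uniform power saving with the
explicit exponent `0.06`. -/

namespace Pool.Agent.N905.Shelf.TailExplicit_005f52

open Pool.Agent.H499R2.ND (Td)

/-- The Syracuse map. -/
def Syr (N : ℤ) : ℤ := (3 * N + 1) / 2 ^ padicValInt 2 (3 * N + 1)

/-- the union of the three known cycles -/
def Known : Set ℤ := {-1, -5, -7, -17, -25, -37, -55, -41, -61, -91}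

/-- the number of the negative odd integers `N ≥ -X` with the property `P` -/
noncomputable def count (P : ℤ → Prop) (X : ℝ) : ℝ :=
  ({N : ℤ | N < 0 ∧ Odd N ∧ -X ≤ (N : ℝ) ∧ P N}.ncard : ℝ)

theorem Syr_eq {N M : ℤ} {v : ℕ} (h : 3 * N + 1 = 2 ^ v * M) (hM : M % 2 = 1) : Syr N = M := by
  have hM0 : M ≠ 0 := by rintro rfl; norm_num at hM
  have h1 : padicValInt 2 (3 * N + 1) = v := by
    rw [h, padicValInt.mul (by positivity) hM0]
    have h2 : padicValInt 2 M = 0 := padicValInt.eq_zero_of_not_dvd (by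
      intro h3
      have : (2 : ℤ) ∣ M := by exact_mod_cast h3
      omega)
    have h3 : padicValInt 2 ((2 : ℤ) ^ v) = v := by
      have e : ((2 : ℤ) ^ v) = ((2 ^ v : ℕ) : ℤ) := by push_cast; ring
      rw [e, padicValInt.of_nat, padicValNat.prime_pow]
    rw [h2, h3, add_zero]
  unfold Syr
  rw [h1, h, Int.mul_ediv_cancel_left _ (by positivity)]

theorem exists_pow (n : ℕ) : ∀ x : ℤ, x ≠ 0 → x.natAbs ≤ n →
    ∃ (v : ℕ) (M : ℤ), x = 2 ^ v * M ∧ M % 2 = 1 := by
  induction n with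
  | zero => intro x hx h; omega
  | succ n ih =>
    intro x hx h
    by_cases h2 : x % 2 = 1
    · exact ⟨0, x, by simp, h2⟩
    · obtain ⟨v, M, h3, h4⟩ := ih (x / 2) (by omega) (by omega)
      refine ⟨v + 1, M, ?_, h4⟩
      have : x = 2 * (x / 2) := by omega
      rw [this, h3, pow_succ]; ring

theorem Td_even {x : ℤ} (h : x % 2 = 0) : Td 1 x = x / 2 := by unfold Td; rw [if_pos h]
theorem Td_odd {x : ℤ} (h : x % 2 = 1) : Td 1 x = (3 * x + 1) / 2 := by
  unfold Td; rw [if_neg (by omega)]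

theorem Td_pow (M : ℤ) (v j : ℕ) (hj : j ≤ v) : (Td 1)^[j] (2 ^ v * M) = 2 ^ (v - j) * M := by
  induction j with
  | zero => simp
  | succ j ih =>
    rw [Function.iterate_succ_apply', ih (by omega)]
    have e : v - j = (v - (j + 1)) + 1 := by omega
    rw [e, pow_succ, Td_even (by
      have : (2 : ℤ) ^ (v - (j + 1)) * 2 * M = 2 * (2 ^ (v - (j + 1)) * M) := by ring
      rw [this]; omega)]
    have : (2 : ℤ) ^ (v - (j + 1)) * 2 * M = 2 * (2 ^ (v - (j + 1)) * M) := by ring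
    rw [this]; omega

/-- every term of the orbit under `x ↦ x/2`, `(3x+1)/2` of an odd integer is at least as large in absolute
value as some term of the Syracuse orbit -/
theorem below (n : ℕ) : ∀ N : ℤ, N % 2 = 1 → ∃ k : ℕ, |Syr^[k] N| ≤ |(Td 1)^[n] N| := by
  induction n using Nat.strong_induction_on with
  | _ n ih =>
    intro N hN
    rcases Nat.eq_zero_or_pos n with rfl | hn
    · exact ⟨0, le_rfl⟩
    · obtain ⟨v, M, h1, h2⟩ := exists_pow (3 * N + 1).natAbs (3 * N + 1) (by omega) le_rfl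
      have hv : 1 ≤ v := by
        by_contra h
        have : v = 0 := by omega
        rw [this, pow_zero, one_mul] at h1
        omega
      have hS := Syr_eq h1 h2
      have hT : Td 1 N = 2 ^ (v - 1) * M := by
        rw [Td_odd hN, h1]
        have e : v = (v - 1) + 1 := by omega
        rw [e, pow_succ, Nat.add_sub_cancel]
        have : (2 : ℤ) ^ (v - 1) * 2 * M = 2 * (2 ^ (v - 1) * M) := by ring
        rw [this]; omega
      rcases le_or_gt n v with hnv | hnv
      · refine ⟨1, ?_⟩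
        have e : n = (n - 1) + 1 := by omega
        have e2 : (Td 1)^[n] N = 2 ^ (v - 1 - (n - 1)) * M := by
          rw [e, Function.iterate_succ_apply, hT, Td_pow M (v - 1) (n - 1) (by omega)]
          simp
        rw [e2, Function.iterate_one, hS, abs_mul]
        have h3 : (1 : ℤ) ≤ |(2 : ℤ) ^ (v - 1 - (n - 1))| := by
          rw [abs_of_pos (by positivity)]
          exact one_le_pow₀ (by norm_num)
        nlinarith [abs_nonneg M]
      · obtain ⟨k, hk⟩ := ih (n - v) (by omega) (Syr N) (by rw [hS]; exact h2)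
        refine ⟨k + 1, ?_⟩
        rw [Function.iterate_succ_apply]
        refine hk.trans (le_of_eq ?_)
        congr 1
        have e : n = (n - v) + ((v - 1) + 1) := by omega
        conv_rhs => rw [e, Function.iterate_add_apply, Function.iterate_succ_apply, hT,
          Td_pow M (v - 1) (v - 1) le_rfl]
        rw [Nat.sub_self, pow_zero, one_mul, hS]

theorem Syr_neg {N : ℤ} (hN : N % 2 = 1) (h0 : N < 0) : Syr N % 2 = 1 ∧ Syr N < 0 := by
  obtain ⟨v, M, h1, h2⟩ := exists_pow (3 * N + 1).natAbs (3 * N + 1) (by omega) le_rfl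
  rw [Syr_eq h1 h2]
  refine ⟨h2, ?_⟩
  by_contra h
  have h3 : 0 ≤ 2 ^ v * M := mul_nonneg (by positivity) (by omega)
  omega

theorem iter_neg {N : ℤ} (hN : N % 2 = 1) (h0 : N < 0) (k : ℕ) :
    (Syr^[k] N) % 2 = 1 ∧ Syr^[k] N < 0 := by
  induction k with
  | zero => exact ⟨hN, h0⟩
  | succ k ih => rw [Function.iterate_succ_apply']; exact Syr_neg ih.1 ih.2

/-- There is `A` such that for all `X, y ≥ 1` at most `A X / y ^ 0.06` of the negative odd integers `N ≥ -X`
have a Syracuse orbit all of whose terms are smaller than `-y`; hence, if the orbits of all negative odd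
integers `N ≥ -y` reach the three known cycles, then so do those of all but at most `A X / y ^ 0.06` of the
negative odd integers `N ≥ -X`. -/
theorem result : ∃ A : ℝ, 0 < A ∧ ∀ X y : ℝ, 1 ≤ X → 1 ≤ y →
      count (fun N => ∀ k : ℕ, ((Syr^[k] N : ℤ) : ℝ) < -y) X ≤ A * X / y ^ (6 / 100 : ℝ) ∧
      ((∀ N : ℤ, N < 0 → Odd N → -y ≤ (N : ℝ) → ∃ k, Syr^[k] N ∈ Known) →
        count (fun N => ∀ k : ℕ, Syr^[k] N ∉ Known) X ≤ A * X / y ^ (6 / 100 : ℝ)) := by
  obtain ⟨A, hA, h⟩ := Pool.Agent.N905.EX.three_ex (k := 1) odd_one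
  refine ⟨A, hA, fun X y hX hy => ?_⟩
  have hfin : ∀ P : ℤ → Prop, {x : ℤ | |(x : ℝ)| ≤ X ∧ P x}.Finite := by
    intro P
    apply (Set.finite_Icc (-⌈X⌉) ⌈X⌉).subset
    rintro x ⟨hx, -⟩
    have h1 := abs_le.1 hx
    have h2 := Int.le_ceil X
    rw [Set.mem_Icc]
    constructor
    · have : (-(⌈X⌉ : ℤ) : ℝ) ≤ x := by linarith
      exact_mod_cast this
    · have : (x : ℝ) ≤ (⌈X⌉ : ℤ) := by linarith
      exact_mod_cast this
  have hfin2 : ∀ P : ℤ → Prop, {N : ℤ | N < 0 ∧ Odd N ∧ -X ≤ (N : ℝ) ∧ P N}.Finite := by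
    intro P
    apply (hfin P).subset
    rintro x ⟨hx0, -, hx, hP⟩
    refine ⟨?_, hP⟩
    have : (x : ℝ) < 0 := by exact_mod_cast hx0
    rw [abs_of_neg this]; linarith
  have h1 : count (fun N => ∀ k : ℕ, ((Syr^[k] N : ℤ) : ℝ) < -y) X ≤ A * X / y ^ (6 / 100 : ℝ) := by
    refine le_trans ?_ (h X y hX hy)
    unfold count
    have hsub : {N : ℤ | N < 0 ∧ Odd N ∧ -X ≤ (N : ℝ) ∧ ∀ k : ℕ, ((Syr^[k] N : ℤ) : ℝ) < -y} ⊆
        {x : ℤ | |(x : ℝ)| ≤ X ∧ ∀ n : ℕ, y < |(((Td 1)^[n] x : ℤ) : ℝ)|} := by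
      rintro x ⟨hx0, hx1, hx2, hx3⟩
      have hxn : (x : ℝ) < 0 := by exact_mod_cast hx0
      refine ⟨by rw [abs_of_neg hxn]; linarith, fun n => ?_⟩
      have hodd : x % 2 = 1 := Int.odd_iff.1 hx1
      obtain ⟨k, hk⟩ := below n x hodd
      have h4 := hx3 k
      have h5 : ((Syr^[k] x : ℤ) : ℝ) < 0 := by linarith
      have h6 : |((Syr^[k] x : ℤ) : ℝ)| ≤ |(((Td 1)^[n] x : ℤ) : ℝ)| := by exact_mod_cast hk
      rw [abs_of_neg h5] at h6
      linarith
    exact_mod_cast Set.ncard_le_ncard hsub (hfin _)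
  refine ⟨h1, fun hm => le_trans ?_ h1⟩
  unfold count
  have hsub : {N : ℤ | N < 0 ∧ Odd N ∧ -X ≤ (N : ℝ) ∧ ∀ k : ℕ, Syr^[k] N ∉ Known} ⊆
      {N : ℤ | N < 0 ∧ Odd N ∧ -X ≤ (N : ℝ) ∧ ∀ k : ℕ, ((Syr^[k] N : ℤ) : ℝ) < -y} := by
    rintro x ⟨h1, h2, h3, h4⟩
    refine ⟨h1, h2, h3, fun k => ?_⟩
    by_contra hcon
    push Not at hcon
    obtain ⟨h5, h6⟩ := iter_neg (Int.odd_iff.1 h2) h1 k
    obtain ⟨j, hj⟩ := hm (Syr^[k] x) h6 (Int.odd_iff.2 h5) hcon
    rw [← Function.iterate_add_apply] at hj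
    exact h4 _ hj
  exact_mod_cast Set.ncard_le_ncard hsub (hfin2 _)

end Pool.Agent.N905.Shelf.TailExplicit_005f52
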