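import Pool.Agent.N905.EX.MiniU

set_option autoImplicit false

/-! The `3x+d` maps: power saving with the explicit exponent `0.06`, uniformly in `d`. -/

namespace Pool.Agent.N905.Shelf.UniformExplicit_d0d59f

open Finset

/-- the `3x+d` map on the integers -/
def T (d x : ℤ) : ℤ := if x % 2 = 0 then x / 2 else (3 * x + d) / 2

/-- The number of integers `n` with `|n| ≤ X` and the property `P`. -/
noncomputable def count (P : ℤ → Prop) (X : ℝ) : ℝ := ({n : ℤ | |(n : ℝ)| ≤ X ∧ P n}.ncard : ℝ)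

theorem fin_set (P : ℤ → Prop) (X : ℝ) : {x : ℤ | |(x : ℝ)| ≤ X ∧ P x}.Finite := by
  apply (Set.finite_Icc (-⌈X⌉) ⌈X⌉).subset
  rintro x ⟨hx, -⟩
  have h1 := abs_le.1 hx
  have h2 := Int.le_ceil X
  rw [Set.mem_Icc]
  constructor
  · have : (-(⌈X⌉ : ℤ) : ℝ) ≤ x := by linarith
    exact_mod_cast this
  · have : (x : ℝ) ≤ (⌈X⌉ : ℤ) := by linarith
    exact_mod_cast this

/-- the orbit never falls below its starting point -/
def Min (d x : ℤ) : Prop := ∀ n : ℕ, |(x : ℝ)| ≤ |(((T d)^[n] x : ℤ) : ℝ)|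

/-- the element of least absolute value of a forward orbit -/
theorem exists_min (d x : ℤ) : ∃ k : ℕ, |(((T d)^[k] x : ℤ) : ℝ)| ≤ |(x : ℝ)| ∧ Min d ((T d)^[k] x) := by
  classical
  have h1 : ∃ m : ℕ, ∃ k : ℕ, ((T d)^[k] x).natAbs = m := ⟨_, 0, rfl⟩
  obtain ⟨k, hk⟩ := Nat.find_spec h1
  have h2 : ∀ j : ℕ, ((T d)^[k] x).natAbs ≤ ((T d)^[j] x).natAbs := by
    intro j
    rw [hk]
    exact Nat.find_min' h1 ⟨j, rfl⟩
  have h3 : ∀ z : ℤ, |(z : ℝ)| = (z.natAbs : ℝ) := by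
    intro z
    rw [← Int.cast_abs, Int.abs_eq_natAbs, Int.cast_natCast]
  refine ⟨k, ?_, ?_⟩
  · rw [h3, h3]
    exact_mod_cast h2 0
  · intro n
    rw [h3, h3, ← Function.iterate_add_apply]
    exact_mod_cast h2 (n + k)

/-- There is `C > 0` such that for ALL odd `d` prime to `3`:

(1) for all `X ≥ 1` and `y > 0` at most `C X (|d| / y) ^ 0.06` of the integers `x` with `|x| ≤ X` have a
`3x+d` orbit all of whose elements are larger than `y` in absolute value;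

(2) for every `X ≥ 1` there is a finite set `F` of at most `C |d| ^ 0.06 X ^ 0.94` integers such that the
`3x+d` orbit of every integer `x` with `|x| ≤ X` contains an element `m` of `F`, with `|m| ≤ |x|`. -/
theorem result :
    ∃ C : ℝ, 0 < C ∧ ∀ d : ℤ, d % 2 = 1 → ¬ (3 : ℤ) ∣ d →
      (∀ X y : ℝ, 1 ≤ X → 0 < y →
        count (fun x => ∀ n : ℕ, y < |(((T d)^[n] x : ℤ) : ℝ)|) X ≤
          C * X * (|(d : ℝ)| / y) ^ (6 / 100 : ℝ)) ∧
      (∀ X : ℝ, 1 ≤ X → ∃ F : Finset ℤ,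
        (F.card : ℝ) ≤ C * |(d : ℝ)| ^ (6 / 100 : ℝ) * X ^ (94 / 100 : ℝ) ∧
        ∀ x : ℤ, |(x : ℝ)| ≤ X → ∃ m ∈ F, |(m : ℝ)| ≤ |(x : ℝ)| ∧ ∃ n : ℕ, (T d)^[n] x = m) := by
  obtain ⟨A, hA, h⟩ := Pool.Agent.N905.EX.threeU_ex
  obtain ⟨B, hB, h'⟩ := Pool.Agent.N905.EX.minU_ex
  refine ⟨max A B, lt_max_of_lt_left hA, fun d hd hd3 => ⟨fun X y hX hy => ?_, fun X hX => ?_⟩⟩
  · refine (h d (Int.odd_iff.2 hd) hd3 X y hX hy).trans ?_
    have h1 : 0 ≤ (|(d : ℝ)| / y) ^ (6 / 100 : ℝ) := Real.rpow_nonneg (by positivity) _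
    have h2 : A * X ≤ max A B * X := mul_le_mul_of_nonneg_right (le_max_left _ _) (by linarith)
    exact mul_le_mul_of_nonneg_right h2 h1
  · refine ⟨(fin_set (Min d) X).toFinset, ?_, ?_⟩
    · have h1 := h' d (Int.odd_iff.2 hd) X hX (fin_set (Min d) X).toFinset (fun x hx => by
        rw [Set.Finite.mem_toFinset] at hx
        exact hx)
      refine h1.trans ?_
      apply mul_le_mul_of_nonneg_right _ (Real.rpow_nonneg (by linarith) _)
      exact mul_le_mul_of_nonneg_right (le_max_right _ _) (Real.rpow_nonneg (abs_nonneg _) _)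
    · intro x hx
      obtain ⟨k, hk1, hk2⟩ := exists_min d x
      refine ⟨(T d)^[k] x, ?_, hk1, k, rfl⟩
      rw [Set.Finite.mem_toFinset]
      exact ⟨hk1.trans hx, hk2⟩

end Pool.Agent.N905.Shelf.UniformExplicit_d0d59f
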